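import Pool.Agent.W316.Iitaka2

/-! Iitaka's subadditivity for fibrations over quotients of products of curves. -/

set_option autoImplicit false
set_option linter.overlappingInstances false

universe u

open FF IntermediateField Pool.Agent.W619.PQ Pool.Agent.W619.PL Pool.Agent.W619.TW
  Pool.Agent.W619.X Pool.Agent.W619.Y

namespace Pool.Agent.Results.MP_f72953_ag.OverCurveQuotients

/-- Let `Y` be a projective variety of dimension `d` with function field `M`, `Z` a projective
variety of dimension `d + n` with function field `L`, `F i` (`i < n`) the function fields of curves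
`C i`, with a generically finite rational map from `Z` to the product of `Y` and the curves
(`halg`), `G` a finite group of automorphisms of `L` which permutes the curves through `σ`. Let `X`
be a projective manifold birational to `Z / G` (function field `fixedField G`), `B` one birational
to the quotient by `G` of the product `P` of the curves (function field
`(⨆ i, F i) ⊓ fixedField G`), and let `E` be the generic fibre of `X → B`. Assume `MixedPos`, for
instance that the fixed locus of each `g ≠ 1` in `G` on the product of the curves is empty or of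
codimension at least `7`. Let `h` be the number of curves which are not elliptic.

(1) The function field of `Z` is the compositum of those of `X` and `P`, so `Z` is birational to the
fibre product of `X` and `P` over `B`. (2) If the curves are irrational, then `κ X ≥ κ Y + h`.
(3) If `κ B ≥ b`, then the curves are irrational and `b ≤ h`. (4) `κ X ≥ κ Y + κ B`. (5) If
`κ E ≤ κ Y`, then `κ X ≥ κ E + κ B`. -/
theorem result {L : Type u} [Field L] [Algebra ℂ L] (d n : ℕ)
    (hn : Algebra.trdeg ℂ L = (d + n : ℕ))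
    (M : IntermediateField ℂ L) [Algebra.EssFiniteType ℂ M] (hM : Algebra.trdeg ℂ M = d)
    (F : Fin n → IntermediateField ℂ L) (hF : ∀ i, IsFF ℂ (F i))
    (halg : Algebra.IsAlgebraic ↥(M ⊔ ⨆ i, F i) L)
    (G : Subgroup (L ≃ₐ[ℂ] L)) [Finite G] (σ : G →* Equiv.Perm (Fin n))
    (hσ : ∀ (g : G) i, ∀ z ∈ F i, (g : L ≃ₐ[ℂ] L) z ∈ F (σ g i))
    (h : MixedPos G σ F) :
    fixedField G ⊔ (⨆ i, F i) = ⊤ ∧
    ((∀ i, ¬ ∃ t : F i, ℂ⟮t⟯ = ⊤) → ∀ a, KodTr ℂ M d a →
      KodTr ℂ (fixedField G) (d + n) (a + {i | ¬ IsElliptic (F i)}.ncard)) ∧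
    (∀ b, KodTr ℂ ↥((⨆ i, F i) ⊓ fixedField G) n b →
      (∀ i, ¬ ∃ t : F i, ℂ⟮t⟯ = ⊤) ∧ b ≤ {i | ¬ IsElliptic (F i)}.ncard) ∧
    (∀ a b, KodTr ℂ M d a → KodTr ℂ ↥((⨆ i, F i) ⊓ fixedField G) n b →
      KodTr ℂ (fixedField G) (d + n) (a + b)) ∧
    ((∀ a, KodTr ↥((⨆ i, F i) ⊓ fixedField G) ↥(extendScalars
        (inf_le_right : (⨆ i, F i) ⊓ fixedField G ≤ fixedField G)) d a → KodTr ℂ M d a) →
      ∀ a b, KodTr ↥((⨆ i, F i) ⊓ fixedField G) ↥(extendScalars
        (inf_le_right : (⨆ i, F i) ⊓ fixedField G ≤ fixedField G)) d a →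
      KodTr ℂ ↥((⨆ i, F i) ⊓ fixedField G) n b → KodTr ℂ (fixedField G) (d + n) (a + b)) := by
  obtain ⟨h1, h2, h3⟩ := Pool.Agent.W316.Iit.iitaka d n hn M hM F halg G σ hσ h
  exact ⟨h1, fun hirr a ha => ((abM d n hn M hM F halg G σ hσ h).1 hirr a ha).1, h2, h3,
    fun h4 a b ha hb => h3 a b (h4 a ha) hb⟩

end Pool.Agent.Results.MP_f72953_ag.OverCurveQuotients
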